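import Mathlib

/-!
# Contractible graphs: the definitions

`V(H) ⊆ V(G)` is expressed by an injection `ι : V(H) → V(G)`.
-/

set_option autoImplicit false

namespace Pool.Agent.Lib.MP_2025f4_co

/-- `HasScheme H G ι`: the graph `G` contains an `H`-scheme, where the injection `ι` expresses
the inclusion `V(H) ⊆ V(G)`. The scheme consists of paths `P u v` of `G` between `ι u` and `ι v`,
one for every edge `uv` of `H` (`P v u` is `P u v` traversed backwards), such that

* `P u v` contains no other vertex of `H` than `u` and `v`;
* for every vertex `w` of `G` that lies on some path of the scheme, all edges `uv` of `H` whose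
  path contains `w` share one common endpoint `c`. (This is the second condition of the
  definition, applied to all edges whose paths contain `w`; it implies the condition for every
  subfamily of these edges.) -/
def HasScheme {V W : Type} (H : SimpleGraph V) (G : SimpleGraph W) (ι : V ↪ W) : Prop :=
  ∃ P : ∀ u v : V, H.Adj u v → G.Walk (ι u) (ι v),
    (∀ u v (h : H.Adj u v), (P u v h).IsPath) ∧
    (∀ u v (h : H.Adj u v), P v u h.symm = (P u v h).reverse) ∧
    (∀ u v (h : H.Adj u v) (x : V), ι x ∈ (P u v h).support → x = u ∨ x = v) ∧
    (∀ w : W, (∃ u v, ∃ h : H.Adj u v, w ∈ (P u v h).support) →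
      ∃ c : V, ∀ u v (h : H.Adj u v), w ∈ (P u v h).support → c = u ∨ c = v)

/-- `HasMinor H G`: the graph `G` contains an `H`-minor, that is, there are pairwise disjoint
connected sets `C v` of vertices of `G`, one for every vertex `v` of `H`, such that for every edge
`uv` of `H` some edge of `G` joins `C u` and `C v`. -/
def HasMinor {V W : Type} (H : SimpleGraph V) (G : SimpleGraph W) : Prop :=
  ∃ C : V → Set W, (∀ v, (G.induce (C v)).Connected) ∧
    (∀ u v, u ≠ v → Disjoint (C u) (C v)) ∧
    ∀ u v, H.Adj u v → ∃ x ∈ C u, ∃ y ∈ C v, G.Adj x y

/-- `H` is weakly contractible if every finite graph containing an `H`-scheme has an `H`-minor. -/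
def WeaklyContractible {V : Type} (H : SimpleGraph V) : Prop :=
  ∀ (W : Type) [Fintype W] (G : SimpleGraph W) (ι : V ↪ W), HasScheme H G ι → HasMinor H G

end Pool.Agent.Lib.MP_2025f4_co
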