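import Mathlib
import Pool.Agent.Lib.MP_2025f4_co.Defs

/-!
# Weak contractibility is not inherited by subgraphs

We disprove the statement that every subgraph of a weakly contractible graph is weakly
contractible.

Let `D` be the dumbbell: two 5-cycles joined by one edge (between the vertices with index `0`).
For `n : K → ℕ` (where `K` is the vertex set of `D`) let `T n` be `D` with `n x` pendant leaves
attached at every vertex `x` of `D`.

* If `n` is constant, `T n` is weakly contractible: inside each of the two sides of a scheme one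
  finds a rooted model of the 5-cycle together with its leaves (`cycle_lemma`), the path of the
  scheme that belongs to the joining edge connects the two models somewhere, and the rotational
  symmetry of `T n` on either side allows to relabel.
* If the numbers `n x` are pairwise far apart, `T n` is not weakly contractible: in the graph
  `Host n` (every edge `xy` of `D` is realised by the path `x, y', x', y` through new vertices
  `x', y'`, one new vertex for each vertex of `D`) the leaves force a model to be rooted, and a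
  rooted model of `D` would need eleven new vertices while only ten are available.
-/

set_option autoImplicit false

namespace Pool.Agent.Lib.MP_2025f4_co

open SimpleGraph

section cycleLemma

variable {W : Type} {G : SimpleGraph W}

/-- `Link G A R B`: there is a walk starting in `A`, then running through the
vertices of the list `R` in order, and then ending in `B`. -/
def Link (G : SimpleGraph W) : Set W → List W → Set W → Prop
  | A, [], B => ∃ a ∈ A, ∃ b ∈ B, G.Adj a b
  | A, x :: R, B => (∃ a ∈ A, G.Adj a x) ∧ Link G {x} R B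

theorem Link.mono_left {A A' : Set W} (h : A ⊆ A') {R : List W} {B : Set W}
    (hl : Link G A R B) : Link G A' R B := by
  cases R with
  | nil => obtain ⟨a, ha, b, hb, hab⟩ := hl; exact ⟨a, h ha, b, hb, hab⟩
  | cons x R => obtain ⟨⟨a, ha, hax⟩, hr⟩ := hl; exact ⟨⟨a, h ha, hax⟩, hr⟩

theorem Link.mono_right {B B' : Set W} (h : B ⊆ B') {R : List W} : ∀ {A : Set W},
    Link G A R B → Link G A R B' := by
  induction R with
  | nil => rintro A ⟨a, ha, b, hb, hab⟩; exact ⟨a, ha, b, h hb, hab⟩
  | cons x R ih => rintro A ⟨h1, h2⟩; exact ⟨h1, ih h2⟩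

theorem Link.append_iff {L : List W} {x : W} {L' : List W} {B : Set W} : ∀ {A : Set W},
    Link G A (L ++ x :: L') B ↔ Link G A L {x} ∧ Link G {x} L' B := by
  induction L with
  | nil =>
    intro A
    simp [Link]
  | cons y L ih =>
    intro A
    simp only [List.cons_append, Link, ih]
    tauto

theorem Link.reverse {R : List W} : ∀ {A B : Set W}, Link G A R B → Link G B R.reverse A := by
  induction R with
  | nil => rintro A B ⟨a, ha, b, hb, hab⟩; exact ⟨b, hb, a, ha, hab.symm⟩
  | cons x R ih =>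
    rintro A B ⟨⟨a, ha, hax⟩, h2⟩
    rw [List.reverse_cons]
    exact Link.append_iff.2 ⟨ih h2, ⟨x, rfl, a, ha, hax.symm⟩⟩

theorem Link.exists_points {R : List W} : ∀ {A B : Set W}, Link G A R B →
    ∃ a ∈ A, ∃ b ∈ B, Link G {a} R {b} := by
  induction R with
  | nil => rintro A B ⟨a, ha, b, hb, hab⟩; exact ⟨a, ha, b, hb, a, rfl, b, rfl, hab⟩
  | cons x R ih =>
    rintro A B ⟨⟨a, ha, hax⟩, h2⟩
    obtain ⟨c, hc, b, hb, h3⟩ := ih h2
    obtain rfl : c = x := hc
    exact ⟨a, ha, b, hb, ⟨a, rfl, hax⟩, h3⟩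

theorem connected_singleton (x : W) : (G.induce ({x} : Set W)).Connected := by
  have : Subsingleton ({x} : Set W) := by
    constructor; rintro ⟨a, ha⟩ ⟨b, hb⟩; rw [Set.mem_singleton_iff] at ha hb; subst ha; subst hb; rfl
  exact { preconnected := fun a b => by rw [Subsingleton.elim a b], nonempty := ⟨⟨x, rfl⟩⟩ }

/-- Appending the interior list of a link to a connected set keeps it connected. -/
theorem Link.connected_union {R : List W} : ∀ {A B : Set W},
    (G.induce A).Connected → Link G A R B →
    (G.induce (A ∪ {x | x ∈ R})).Connected ∧ ∃ x ∈ A ∪ {x | x ∈ R}, ∃ b ∈ B, G.Adj x b := by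
  induction R with
  | nil =>
    rintro A B hA ⟨a, ha, b, hb, hab⟩
    have hset : A ∪ {x | x ∈ ([] : List W)} = A := by ext z; simp
    rw [hset]
    exact ⟨hA, a, ha, b, hb, hab⟩
  | cons y R ih =>
    rintro A B hA ⟨⟨a, ha, hay⟩, h2⟩
    have h3 := connected_induce_union (G := G) hA.preconnected (connected_singleton y).preconnected
      ha (rfl : y ∈ ({y} : Set W)) hay
    have h4 : Link G (A ∪ {y}) R B := h2.mono_left Set.subset_union_right
    obtain ⟨h5, x, hx, b, hb, hxb⟩ := ih h3 h4
    have hset : A ∪ {y} ∪ {x | x ∈ R} = A ∪ {x | x ∈ y :: R} := by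
      ext z; simp only [Set.mem_union, Set.mem_singleton_iff, Set.mem_ofPred_eq, List.mem_cons]; tauto
    rw [hset] at h5 hx
    exact ⟨h5, x, hx, b, hb, hxb⟩

theorem mem_takeWhile_ne {x f : W} [DecidableEq W] : ∀ {L : List W},
    x ∈ L.takeWhile (fun y => decide (y ≠ f)) → x ∈ L ∧ x ≠ f := by
  intro L
  induction L with
  | nil => simp
  | cons y L ih =>
    intro hx
    by_cases hy : y = f
    · simp [hy] at hx
    · simp only [ne_eq, hy, not_false_eq_true, decide_true, List.takeWhile_cons_of_pos,
        List.mem_cons] at hx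
      rcases hx with rfl | hx
      · exact ⟨by simp, hy⟩
      · have := ih hx
        exact ⟨by simp [this.1], this.2⟩

theorem link_takeWhile {f : W} [DecidableEq W] {B : Set W} : ∀ {L : List W} {A : Set W},
    f ∈ L → Link G A L B → Link G A (L.takeWhile (fun y => decide (y ≠ f))) {f} := by
  intro L
  induction L with
  | nil => simp
  | cons y L ih =>
    intro A hf hl
    obtain ⟨h1, h2⟩ := hl
    by_cases hy : y = f
    · subst hy
      obtain ⟨a, ha, hay⟩ := h1
      simp only [ne_eq, not_true_eq_false, decide_false, Bool.false_eq_true, not_false_eq_true,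
        List.takeWhile_cons_of_neg]
      exact ⟨a, ha, y, rfl, hay⟩
    · simp only [ne_eq, hy, not_false_eq_true, decide_true, List.takeWhile_cons_of_pos]
      have hf' : f ∈ L := by
        rcases List.mem_cons.1 hf with h | h
        · exact absurd h.symm hy
        · exact h
      exact ⟨h1, ih hf' h2⟩

theorem takeWhile_eq_self_of_not_mem {f : W} [DecidableEq W] : ∀ {L : List W},
    f ∉ L → L.takeWhile (fun y => decide (y ≠ f)) = L := by
  intro L hf
  rw [List.takeWhile_eq_self_iff]
  intro x hx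
  have : x ≠ f := fun h => hf (h ▸ hx)
  simpa using this

theorem fin5_all : ∀ i j : Fin 5,
    j = i ∨ j = i + 1 ∨ j = i + 1 + 1 ∨ j = i + 1 + 1 + 1 ∨ j = i + 1 + 1 + 1 + 1 := by decide

theorem fin5_a : ∀ i j : Fin 5, (i = j ∨ i = j + 1 ∨ j = i + 1) →
    (i = j - 1 ∨ i = j - 1 + 1 ∨ j - 1 = i + 1) → (i = j ∨ i = j - 1) := by decide

theorem fin5_b : ∀ i j : Fin 5, (i = j ∨ i = j - 1) → (j = i ∨ j = i - 1) → i = j := by decide

theorem fin5_c : ∀ i : Fin 5, i = i + 1 → False := by decide

/-- The cycle lemma (5-cycles are contractible, in a version for connected sets `Z i`). -/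
theorem cycle_lemma : ∀ (n : ℕ) (Z : Fin 5 → Set W) (R : Fin 5 → List W),
    (∑ i, (R i).length = n) →
    (∀ i, (G.induce (Z i)).Connected) →
    (∀ i j, i ≠ j → Disjoint (Z i) (Z j)) →
    (∀ i j, ∀ x ∈ R i, x ∉ Z j) →
    (∀ i, (R i).Nodup) →
    (∀ i j, ∀ x, x ∈ R i → x ∈ R j → j = i ∨ j = i + 1 ∨ i = j + 1) →
    (∀ i, Link G (Z i) (R i) (Z (i + 1))) →
    ∃ C : Fin 5 → Set W, (∀ i, Z i ⊆ C i) ∧ (∀ i, (G.induce (C i)).Connected) ∧
      (∀ i j, i ≠ j → Disjoint (C i) (C j)) ∧
      (∀ i, ∀ x ∈ C i, ∃ j, x ∈ Z j ∨ x ∈ R j) ∧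
      ∀ i, ∃ x ∈ C i, ∃ y ∈ C (i + 1), G.Adj x y := by
  classical
  intro n
  induction n using Nat.strong_induction_on with
  | _ n ih =>
  intro Z R hn hZc hZd hRZ hRn hRR hL
  by_cases h1 : ∃ i f T, R i = f :: T ∧ f ∉ R (i + 1)
  · -- move the first vertex `f` of `R i` into `Z i`
    obtain ⟨i, f, T, hRi, hf⟩ := h1
    have hfi : f ∈ R i := by rw [hRi]; simp
    have hfT : f ∉ T := by
      have := hRn i; rw [hRi] at this; exact (List.nodup_cons.1 this).1
    let Z' : Fin 5 → Set W := fun j => if j = i then Z i ∪ {f} else Z j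
    let R' : Fin 5 → List W := fun j => if j = i then T else
      (R j).takeWhile (fun y => decide (y ≠ f))
    have hZ'i : Z' i = Z i ∪ {f} := by simp [Z']
    have hZ'j : ∀ j, j ≠ i → Z' j = Z j := by intro j hj; simp [Z', hj]
    have hR'i : R' i = T := by simp [R']
    have hR'j : ∀ j, j ≠ i → R' j = (R j).takeWhile (fun y => decide (y ≠ f)) := by
      intro j hj; simp [R', hj]
    have hR'sub : ∀ j, ∀ x ∈ R' j, x ∈ R j ∧ x ≠ f := by
      intro j x hx
      by_cases hj : j = i
      · subst hj
        rw [hR'i] at hx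
        refine ⟨by rw [hRi]; simp [hx], fun h => hfT (h ▸ hx)⟩
      · rw [hR'j j hj] at hx
        exact mem_takeWhile_ne hx
    have hsubZ : ∀ j, Z j ⊆ Z' j := by
      intro j
      by_cases hj : j = i
      · subst hj; rw [hZ'i]; exact Set.subset_union_left
      · rw [hZ'j j hj]
    have hLi := hL i
    rw [hRi] at hLi
    obtain ⟨⟨a, ha, haf⟩, hLT⟩ := hLi
    have hlt : ∑ j, (R' j).length < n := by
      rw [← hn]
      apply Finset.sum_lt_sum
      · intro j _
        by_cases hj : j = i
        · subst hj; rw [hR'i, hRi]; simp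
        · rw [hR'j j hj]; exact (List.takeWhile_sublist _).length_le
      · exact ⟨i, Finset.mem_univ _, by rw [hR'i, hRi]; simp⟩
    obtain ⟨C, hC1, hC2, hC3, hC4, hC5⟩ := ih _ hlt Z' R' rfl
      (by
        intro j
        by_cases hj : j = i
        · subst hj
          rw [hZ'i]
          exact connected_induce_union (hZc j).preconnected (connected_singleton f).preconnected
            ha rfl haf
        · rw [hZ'j j hj]; exact hZc j)
      (by
        intro j k hjk
        rw [Set.disjoint_left]
        intro x hx hx'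
        by_cases hj : j = i
        · subst hj
          rw [hZ'i] at hx
          rw [hZ'j k (Ne.symm hjk)] at hx'
          rcases hx with hx | hx
          · exact (Set.disjoint_left.1 (hZd j k hjk)) hx hx'
          · rw [Set.mem_singleton_iff] at hx
            subst hx
            exact hRZ j k x hfi hx'
        · rw [hZ'j j hj] at hx
          by_cases hk : k = i
          · subst hk
            rw [hZ'i] at hx'
            rcases hx' with hx' | hx'
            · exact (Set.disjoint_left.1 (hZd j k hjk)) hx hx'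
            · rw [Set.mem_singleton_iff] at hx'
              subst hx'
              exact hRZ k j x hfi hx
          · rw [hZ'j k hk] at hx'
            exact (Set.disjoint_left.1 (hZd j k hjk)) hx hx')
      (by
        intro j k x hx hx'
        obtain ⟨h1, h2⟩ := hR'sub j x hx
        by_cases hk : k = i
        · subst hk
          rw [hZ'i] at hx'
          rcases hx' with hx' | hx'
          · exact hRZ j k x h1 hx'
          · exact h2 hx'
        · rw [hZ'j k hk] at hx'
          exact hRZ j k x h1 hx')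
      (by
        intro j
        by_cases hj : j = i
        · subst hj; rw [hR'i]
          have := hRn j; rw [hRi] at this; exact (List.nodup_cons.1 this).2
        · rw [hR'j j hj]
          exact (List.takeWhile_sublist _).nodup (hRn j))
      (by
        intro j k x hx hx'
        exact hRR j k x (hR'sub j x hx).1 (hR'sub k x hx').1)
      (by
        intro j
        by_cases hj : j = i
        · subst hj
          rw [hR'i, hZ'i]
          exact (hLT.mono_left Set.subset_union_right).mono_right (hsubZ _)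
        · rw [hR'j j hj, hZ'j j hj]
          by_cases hfj : f ∈ R j
          · -- then `j + 1 = i`
            have hj1 : j + 1 = i := by
              rcases hRR i j f hfi hfj with h | h | h
              · exact absurd h hj
              · subst h; exact absurd hfj hf
              · exact h.symm
            have := link_takeWhile hfj (hL j)
            refine this.mono_right ?_
            rw [hj1, hZ'i]
            exact Set.subset_union_right
          · rw [takeWhile_eq_self_of_not_mem hfj]
            exact (hL j).mono_right (hsubZ _))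
    refine ⟨C, fun j => (hsubZ j).trans (hC1 j), hC2, hC3, ?_, hC5⟩
    intro j x hx
    obtain ⟨k, hk⟩ := hC4 j x hx
    rcases hk with hk | hk
    · by_cases hki : k = i
      · subst hki
        rw [hZ'i] at hk
        rcases hk with hk | hk
        · exact ⟨k, Or.inl hk⟩
        · rw [Set.mem_singleton_iff] at hk
          subst hk
          exact ⟨k, Or.inr hfi⟩
      · rw [hZ'j k hki] at hk
        exact ⟨k, Or.inl hk⟩
    · exact ⟨k, Or.inr (hR'sub k x hk).1⟩
  · push Not at h1
    by_cases h2 : ∀ i, R i = []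
    · -- all links are single edges
      refine ⟨Z, fun i => subset_rfl, hZc, hZd, fun i x hx => ⟨i, Or.inl hx⟩, ?_⟩
      intro i
      have := hL i
      rw [h2 i] at this
      exact this
    · -- the rotation step
      have hne : ∀ i, R i ≠ [] := by
        have step : ∀ i, R i ≠ [] → R (i + 1) ≠ [] := by
          intro i hi
          obtain ⟨f, T, hfT⟩ := List.exists_cons_of_ne_nil hi
          have := h1 i f T hfT
          intro h; rw [h] at this; simp at this
        push Not at h2
        obtain ⟨i, hi⟩ := h2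
        have h2 := step i hi
        have h3 := step _ h2
        have h4 := step _ h3
        have h5 := step _ h4
        intro j
        have : j = i ∨ j = i + 1 ∨ j = i + 1 + 1 ∨ j = i + 1 + 1 + 1 ∨ j = i + 1 + 1 + 1 + 1 :=
          fin5_all i j
        rcases this with rfl | rfl | rfl | rfl | rfl <;> assumption
      choose f0 T hfT using fun i => List.exists_cons_of_ne_nil (hne i)
      have hf1 : ∀ i, f0 i ∈ R (i + 1) := fun i => h1 i _ _ (hfT i)
      have hf0 : ∀ i, f0 i ∈ R i := by intro i; rw [hfT i]; simp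
      -- `f i = f0 (i - 1)`
      let f : Fin 5 → W := fun i => f0 (i - 1)
      have hfs : ∀ i, f (i + 1) = f0 i := by intro i; simp [f]
      have hfa : ∀ i, f i ∈ R i := by
        intro i
        have := hf1 (i - 1)
        simpa [f] using this
      have hfb : ∀ i, f (i + 1) ∈ R i := by intro i; rw [hfs]; exact hf0 i
      have hfb' : ∀ i, f i ∈ R (i - 1) := by intro i; exact hf0 (i - 1)
      have hfonly : ∀ i j, f j ∈ R i → i = j ∨ i = j - 1 := by
        intro i j h
        have h3 := hRR j i (f j) (hfa j) h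
        have h4 := hRR (j - 1) i (f j) (hfb' j) h
        exact fin5_a i j h3 h4
      have hfinj : ∀ i j, f i = f j → i = j := by
        intro i j h
        have h3 := hfonly i j (h ▸ hfa i)
        have h4 := hfonly j i (h ▸ hfa j)
        exact fin5_b i j h3 h4
      have hfT' : ∀ i, R i = f (i + 1) :: T i := by intro i; rw [hfs]; exact hfT i
      have hmemT : ∀ i, f i ∈ T i := by
        intro i
        have h3 := hfa i
        rw [hfT' i] at h3
        rcases List.mem_cons.1 h3 with h | h
        · exfalso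
          exact fin5_c i (hfinj _ _ h)
        · exact h
      choose L L' hLL using fun i => List.append_of_mem (hmemT i)
      have hRi : ∀ i, R i = f (i + 1) :: (L i ++ f i :: L' i) := by
        intro i; rw [hfT' i, hLL i]
      have hLsub : ∀ i, ∀ x ∈ L i, x ∈ R i := by
        intro i x hx; rw [hRi i]; simp [hx]
      have hlink : ∀ i, Link G {f i} (L i).reverse {f (i + 1)} := by
        intro i
        have h3 := hL i
        rw [hRi i] at h3
        exact (Link.append_iff.1 h3.2).1.reverse
      have hnd : ∀ i, (f (i + 1) :: (L i ++ f i :: L' i)).Nodup := by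
        intro i; rw [← hRi i]; exact hRn i
      have hlt : ∑ j, ((L j).reverse).length < n := by
        rw [← hn]
        apply Finset.sum_lt_sum
        · intro j _; rw [hRi j]; simp only [List.length_reverse, List.length_cons, List.length_append]; omega
        · refine ⟨0, Finset.mem_univ _, ?_⟩
          rw [hRi 0]; simp only [List.length_reverse, List.length_cons, List.length_append]; omega
      obtain ⟨C, hC1, hC2, hC3, hC4, hC5⟩ := ih _ hlt (fun i => {f i}) (fun i => (L i).reverse) rfl
        (fun i => connected_singleton _)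
        (by
          intro i j hij
          rw [Set.disjoint_singleton]
          exact fun h => hij (hfinj i j h))
        (by
          intro i j x hx hx'
          rw [List.mem_reverse] at hx
          rw [Set.mem_singleton_iff] at hx'
          subst hx'
          have h3 := hfonly i j (hLsub i _ hx)
          have h4 := hnd i
          rw [List.nodup_cons] at h4
          rcases h3 with rfl | h3
          · have h5 := h4.2
            rw [List.nodup_append] at h5
            exact h5.2.2 _ hx _ (by simp) rfl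
          · have h5 : j = i + 1 := by rw [h3]; simp
            subst h5
            exact h4.1 (by simp [hx]))
        (by
          intro i
          rw [List.nodup_reverse]
          have h4 := hnd i
          rw [List.nodup_cons] at h4
          exact (List.nodup_append.1 h4.2).1)
        (by
          intro i j x hx hx'
          rw [List.mem_reverse] at hx hx'
          exact hRR i j x (hLsub i x hx) (hLsub j x hx'))
        hlink
      have hCR : ∀ i, ∀ x ∈ C i, ∃ j, x ∈ R j := by
        intro i x hx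
        obtain ⟨j, hj⟩ := hC4 i x hx
        rcases hj with hj | hj
        · rw [Set.mem_singleton_iff] at hj
          subst hj; exact ⟨j, hfa j⟩
        · rw [List.mem_reverse] at hj
          exact ⟨j, hLsub j x hj⟩
      have hCZ : ∀ i j, Disjoint (C i) (Z j) := by
        intro i j
        rw [Set.disjoint_left]
        intro x hx hx'
        obtain ⟨k, hk⟩ := hCR i x hx
        exact hRZ k j x hk hx'
      refine ⟨fun i => Z i ∪ C (i + 1), fun i => Set.subset_union_left, ?_, ?_, ?_, ?_⟩
      · intro i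
        have h3 := hL i
        rw [hRi i] at h3
        obtain ⟨a, ha, haf⟩ := h3.1
        exact connected_induce_union (hZc i).preconnected (hC2 (i + 1)).preconnected ha
          (hC1 (i + 1) rfl) haf
      · intro i j hij
        have hij' : i + 1 ≠ j + 1 := fun h => hij (add_right_cancel h)
        rw [Set.disjoint_union_left, Set.disjoint_union_right, Set.disjoint_union_right]
        exact ⟨⟨hZd i j hij, (hCZ (j + 1) i).symm⟩, ⟨hCZ (i + 1) j, hC3 _ _ hij'⟩⟩
      · intro i x hx
        rcases hx with hx | hx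
        · exact ⟨i, Or.inl hx⟩
        · obtain ⟨k, hk⟩ := hCR (i + 1) x hx
          exact ⟨k, Or.inr hk⟩
      · intro i
        obtain ⟨x, hx, y, hy, hxy⟩ := hC5 (i + 1)
        exact ⟨x, Or.inr hx, y, Or.inr hy, hxy⟩

end cycleLemma
section extract

variable {W : Type} {G : SimpleGraph W}

theorem extract_toB {B : Set W} : ∀ {c b : W} (p : G.Walk c b), p.IsPath → b ∈ B → c ∉ B →
    ∃ L : List W, Link G {c} L B ∧ (∀ x ∈ L, x ∈ p.support ∧ x ∉ B) ∧ (c :: L).Nodup := by
  intro c b p
  induction p with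
  | nil => intro _ hb hc; exact absurd hb hc
  | @cons c d b h q ih =>
    intro hp hb hc
    rw [Walk.cons_isPath_iff] at hp
    by_cases hd : d ∈ B
    · exact ⟨[], ⟨c, rfl, d, hd, h⟩, by simp, by simp⟩
    · obtain ⟨L, hL, hLs, hLn⟩ := ih hp.1 hb hd
      refine ⟨d :: L, ⟨⟨c, rfl, h⟩, hL⟩, ?_, ?_⟩
      · intro x hx
        rcases List.mem_cons.1 hx with rfl | hx
        · exact ⟨by simp, hd⟩
        · exact ⟨by rw [Walk.support_cons]; exact List.mem_cons_of_mem _ (hLs x hx).1, (hLs x hx).2⟩
      · rw [List.nodup_cons]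
        refine ⟨?_, hLn⟩
        intro hcm
        apply hp.2
        rcases List.mem_cons.1 hcm with rfl | hx
        · exact Walk.start_mem_support _
        · exact (hLs c hx).1

theorem extract {A B : Set W} (hAB : Disjoint A B) : ∀ (n : ℕ) {a b : W} (p : G.Walk a b),
    p.length = n → p.IsPath → a ∈ A → b ∈ B →
    ∃ R : List W, Link G A R B ∧ (∀ x ∈ R, x ∈ p.support ∧ x ∉ A ∧ x ∉ B) ∧ R.Nodup := by
  classical
  intro n
  induction n using Nat.strong_induction_on with
  | _ n ih =>
  intro a b p hn hp ha hb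
  cases p with
  | nil => exact absurd hb (Set.disjoint_left.1 hAB ha)
  | @cons _ c _ h q =>
    rw [Walk.cons_isPath_iff] at hp
    by_cases hy : ∃ y ∈ q.support, y ∈ A
    · obtain ⟨y, hyq, hyA⟩ := hy
      have hlen : (q.dropUntil y hyq).length < n := by
        rw [Walk.length_dropUntil, ← hn, Walk.length_cons]; omega
      obtain ⟨R, h1, h2, h3⟩ := ih _ hlen (q.dropUntil y hyq) rfl (hp.1.dropUntil hyq) hyA hb
      refine ⟨R, h1, ?_, h3⟩
      intro x hx
      obtain ⟨h4, h5⟩ := h2 x hx
      refine ⟨?_, h5⟩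
      rw [Walk.support_cons]
      exact List.mem_cons_of_mem _ (q.support_dropUntil_subset_support hyq h4)
    · push Not at hy
      have hcA : c ∉ A := hy c (Walk.start_mem_support _)
      by_cases hcB : c ∈ B
      · exact ⟨[], ⟨a, ha, c, hcB, h⟩, by simp, by simp⟩
      · obtain ⟨L, hL, hLs, hLn⟩ := extract_toB q hp.1 hb hcB
        refine ⟨c :: L, ⟨⟨a, ha, h⟩, hL⟩, ?_, hLn⟩
        intro x hx
        rw [Walk.support_cons]
        rcases List.mem_cons.1 hx with rfl | hx
        · exact ⟨List.mem_cons_of_mem _ (Walk.start_mem_support _), hcA, hcB⟩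
        · exact ⟨List.mem_cons_of_mem _ (hLs x hx).1, hy x (hLs x hx).1, (hLs x hx).2⟩

end extract

/-- Cycle vertices: two cycles (indexed by `Bool`) of length five. -/
abbrev K := Bool × Fin 5

/-- The dumbbell: two 5-cycles joined by an edge between the two vertices with index 0. -/
def DAdj (x y : K) : Prop :=
  (x.1 = y.1 ∧ (y.2 = x.2 + 1 ∨ x.2 = y.2 + 1)) ∨ (x.1 ≠ y.1 ∧ x.2 = 0 ∧ y.2 = 0)

instance : DecidableRel DAdj := fun x y => by unfold DAdj; infer_instance

theorem DAdj.symm' : ∀ {x y : K}, DAdj x y → DAdj y x := by decide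

theorem DAdj.irrefl' : ∀ {x : K}, ¬ DAdj x x := by decide

/-- The graph `T n`: the dumbbell with `n x` pendant leaves attached at the cycle vertex `x`. -/
def T (n : K → ℕ) : SimpleGraph (K ⊕ (Σ x : K, Fin (n x))) where
  Adj := fun u v => match u, v with
    | Sum.inl x, Sum.inl y => DAdj x y
    | Sum.inl x, Sum.inr p => p.1 = x
    | Sum.inr p, Sum.inl x => p.1 = x
    | Sum.inr _, Sum.inr _ => False
  symm := ⟨by
    rintro (x | p) (y | q) h
    · exact DAdj.symm' h
    · exact h
    · exact h
    · exact h⟩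
  loopless := ⟨by
    rintro (x | p) h
    · exact DAdj.irrefl' h
    · exact h⟩

@[simp] theorem T_inl_inl {n : K → ℕ} {x y : K} :
    (T n).Adj (Sum.inl x) (Sum.inl y) ↔ DAdj x y := Iff.rfl

@[simp] theorem T_inl_inr {n : K → ℕ} {x : K} {p : Σ x : K, Fin (n x)} :
    (T n).Adj (Sum.inl x) (Sum.inr p) ↔ p.1 = x := Iff.rfl

@[simp] theorem T_inr_inl {n : K → ℕ} {x : K} {p : Σ x : K, Fin (n x)} :
    (T n).Adj (Sum.inr p) (Sum.inl x) ↔ p.1 = x := Iff.rfl

@[simp] theorem T_inr_inr {n : K → ℕ} {p q : Σ x : K, Fin (n x)} :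
    ¬ (T n).Adj (Sum.inr p) (Sum.inr q) := fun h => h

theorem T.adjD {n : K → ℕ} {x y : K} (h : DAdj x y) : (T n).Adj (Sum.inl x) (Sum.inl y) := h

theorem T.adjL {n : K → ℕ} (x : K) (k : Fin (n x)) :
    (T n).Adj (Sum.inr ⟨x, k⟩) (Sum.inl x) := rfl

/-- The graph `T n` with the same number of leaves at every cycle vertex is weakly contractible. -/
theorem weaklyContractible_T (N : ℕ) : WeaklyContractible (T (fun _ => N)) := by
  classical
  intro W _ G ι hS
  obtain ⟨P, hPath, hSymm, hRoot, hShare⟩ := hS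
  -- two paths that meet come from edges with a common end
  have share2 : ∀ {u v u' v'} (h : (T (fun _ => N)).Adj u v) (h' : (T (fun _ => N)).Adj u' v')
      {w : W}, w ∈ (P u v h).support → w ∈ (P u' v' h').support →
      ∃ c, (c = u ∨ c = v) ∧ (c = u' ∨ c = v') := by
    intro u v u' v' h h' w hw hw'
    obtain ⟨c, hc⟩ := hShare w ⟨u, v, h, hw⟩
    exact ⟨c, hc _ _ h hw, hc _ _ h' hw'⟩
  -- the leaf paths
  have hleaf : ∀ (x : K) (k : Fin N), ∃ (c : W) (q : G.Walk c (ι (Sum.inl x))),
      G.Adj (ι (Sum.inr ⟨x, k⟩)) c ∧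
      (∀ w ∈ q.support, w ∈ (P (Sum.inr ⟨x, k⟩) (Sum.inl x) (T.adjL (n := fun _ => N) x k)).support) ∧
      ι (Sum.inr ⟨x, k⟩) ∉ q.support := by
    intro x k
    have hp := hPath (Sum.inr ⟨x, k⟩) (Sum.inl x) (T.adjL (n := fun _ => N) x k)
    have key : ∀ {a b : W} (p : G.Walk a b), a ≠ b → p.IsPath → ∃ (c : W) (q : G.Walk c b),
        G.Adj a c ∧ (∀ w ∈ q.support, w ∈ p.support) ∧ a ∉ q.support := by
      intro a b p hab hp
      cases p with
      | nil => exact absurd rfl hab
      | @cons _ c _ h q =>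
        rw [Walk.cons_isPath_iff] at hp
        exact ⟨c, q, h, fun w hw => by rw [Walk.support_cons]; exact List.mem_cons_of_mem _ hw, hp.2⟩
    apply key _ _ hp
    intro h
    have := ι.injective h
    simp at this
  choose c q hqadj hqsub hqleaf using hleaf
  let Z : K → Set W := fun x => {w | w = ι (Sum.inl x) ∨ ∃ k, w ∈ (q x k).support}
  have hZmem : ∀ {x : K} {w : W}, w ∈ Z x ↔ (w = ι (Sum.inl x) ∨ ∃ k, w ∈ (q x k).support) := by
    intro x w; rfl
  have hZroot : ∀ x, ι (Sum.inl x) ∈ Z x := fun x => Or.inl rfl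
  -- vertices of `Z x` and ends of the corresponding paths
  have hZpath : ∀ {x : K} {w : W}, w ∈ Z x → ∀ {u v} (h : (T (fun _ => N)).Adj u v),
      w ∈ (P u v h).support → (Sum.inl x = u ∨ Sum.inl x = v) ∨
        ∃ k, (Sum.inr ⟨x, k⟩ = u ∨ Sum.inr ⟨x, k⟩ = v) := by
    intro x w hw u v h hwP
    rcases hw with rfl | ⟨k, hk⟩
    · exact Or.inl (hRoot u v h _ hwP)
    · obtain ⟨c, hc1, hc2⟩ := share2 (T.adjL (n := fun _ => N) x k) h (hqsub x k w hk) hwP
      rcases hc1 with rfl | rfl
      · exact Or.inr ⟨k, hc2⟩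
      · exact Or.inl hc2
  have hZcyc : ∀ {x : K} {w : W}, w ∈ Z x → ∀ {y y' : K} (h : DAdj y y'),
      w ∈ (P (Sum.inl y) (Sum.inl y') (T.adjD h)).support → x = y ∨ x = y' := by
    intro x w hw y y' h hwP
    rcases hZpath hw (T.adjD h) hwP with h1 | ⟨k, h1⟩
    · simpa using h1
    · simp at h1
  have hZZ : ∀ {x y : K} {w : W}, w ∈ Z x → w ∈ Z y → x = y := by
    intro x y w hx hy
    rcases hy with rfl | ⟨k, hk⟩
    · rcases hx with h1 | ⟨l, hl⟩
      · have := ι.injective h1
        simpa using this.symm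
      · have := hRoot _ _ _ _ (hqsub x l _ hl)
        simp only [reduceCtorEq, Sum.inl.injEq, false_or] at this
        exact this.symm
    · rcases hZpath hx (T.adjL (n := fun _ => N) y k) (hqsub y k w hk) with h1 | ⟨l, h1⟩
      · simpa using h1
      · simp only [Sum.inr.injEq, reduceCtorEq, or_false] at h1
        have := congrArg Sigma.fst h1
        exact this
  have hZleaf : ∀ {x y : K} {k : Fin N}, ι (Sum.inr ⟨y, k⟩) ∉ Z x := by
    intro x y k hmem
    rcases hmem with h1 | ⟨l, hl⟩
    · have := ι.injective h1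
      simp at this
    · have h2 := hRoot _ _ _ _ (hqsub x l _ hl)
      rcases h2 with h2 | h2
      · rw [h2] at hl
        exact hqleaf x l hl
      · simp at h2
  have hZconn : ∀ x, (G.induce (Z x)).Connected := by
    intro x
    apply induce_connected_of_patches (ι (Sum.inl x)) (hZroot x)
    intro v hv
    rcases hv with rfl | ⟨k, hk⟩
    · exact ⟨{ι (Sum.inl x)}, by rintro _ rfl; exact hZroot x, rfl, rfl, Reachable.refl _⟩
    · refine ⟨{w | w ∈ (q x k).support}, fun w hw => Or.inr ⟨k, hw⟩, Walk.end_mem_support _, hk, ?_⟩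
      exact (q x k).connected_induce_support.preconnected _ _
  have hadj : ∀ b : Bool, ∀ i : Fin 5, DAdj (b, i) (b, i + 1) := by decide
  -- the links along the cycles
  have hR : ∀ (b : Bool) (i : Fin 5), ∃ R : List W, Link G (Z (b, i)) R (Z (b, i + 1)) ∧
      (∀ x ∈ R, x ∈ (P (Sum.inl (b, i)) (Sum.inl (b, i + 1)) (T.adjD (hadj b i))).support ∧
        x ∉ Z (b, i) ∧ x ∉ Z (b, i + 1)) ∧ R.Nodup := by
    intro b i
    refine extract ?_ _ (P (Sum.inl (b, i)) (Sum.inl (b, i + 1)) (T.adjD (hadj b i))) rfl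
      (hPath _ _ _) (hZroot _) (hZroot _)
    rw [Set.disjoint_left]
    intro w hw hw'
    have := hZZ hw hw'
    revert this; clear * - ; revert b i; decide
  choose R hRL hRs hRn using hR
  have hRP : ∀ {b i w}, w ∈ R b i →
      w ∈ (P (Sum.inl (b, i)) (Sum.inl (b, i + 1)) (T.adjD (hadj b i))).support :=
    fun {b i w} h => (hRs b i w h).1
  have hRZ : ∀ {b i w x}, w ∈ R b i → w ∉ Z x := by
    intro b i w x hw hwx
    rcases hZcyc hwx (hadj b i) (hRP hw) with rfl | rfl
    · exact (hRs b i w hw).2.1 hwx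
    · exact (hRs b i w hw).2.2 hwx
  have hC : ∀ b : Bool, ∃ C : Fin 5 → Set W, (∀ i, Z (b, i) ⊆ C i) ∧
      (∀ i, (G.induce (C i)).Connected) ∧
      (∀ i j, i ≠ j → Disjoint (C i) (C j)) ∧
      (∀ i, ∀ x ∈ C i, ∃ j, x ∈ Z (b, j) ∨ x ∈ R b j) ∧
      ∀ i, ∃ x ∈ C i, ∃ y ∈ C (i + 1), G.Adj x y := by
    intro b
    refine cycle_lemma _ (fun i => Z (b, i)) (R b) rfl (fun i => hZconn _) ?_ ?_ (hRn b) ?_ (hRL b)
    · intro i j hij
      rw [Set.disjoint_left]
      intro w hw hw'
      have := hZZ hw hw'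
      simp only [Prod.mk.injEq, true_and] at this
      exact hij this
    · intro i j x hx
      exact hRZ hx
    · intro i j x hx hx'
      obtain ⟨c, hc1, hc2⟩ := share2 (T.adjD (n := fun _ => N) (hadj b i)) (T.adjD (n := fun _ => N) (hadj b j)) (hRP hx) (hRP hx')
      rcases hc1 with rfl | rfl <;> rcases hc2 with h | h <;>
        simp only [Sum.inl.injEq, Prod.mk.injEq, true_and] at h
      · exact Or.inl h.symm
      · exact Or.inr (Or.inr h)
      · exact Or.inr (Or.inl h.symm)
      · exact Or.inl (add_right_cancel h).symm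
  choose C hC1 hC2 hC3 hC4 hC5 using hC
  -- no leaf of the scheme lies in one of the sets `C`
  have hCleaf : ∀ {b i y} {k : Fin N}, ι (Sum.inr ⟨y, k⟩) ∉ C b i := by
    intro b i y k h
    obtain ⟨j, hj⟩ := hC4 b i _ h
    rcases hj with hj | hj
    · exact hZleaf hj
    · have := hRoot _ _ _ _ (hRP hj)
      simp at this
  -- the two sides are disjoint
  have hsides : ∀ {b b' i j w}, w ∈ C b i → w ∈ C b' j → b = b' := by
    intro b b' i j w h h'
    obtain ⟨k, hk⟩ := hC4 b i _ h
    obtain ⟨l, hl⟩ := hC4 b' j _ h'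
    rcases hk with hk | hk <;> rcases hl with hl | hl
    · exact congrArg Prod.fst (hZZ hk hl)
    · exact absurd hk (hRZ hl)
    · exact absurd hl (hRZ hk)
    · obtain ⟨c, hc1, hc2⟩ := share2 (T.adjD (n := fun _ => N) (hadj b k)) (T.adjD (n := fun _ => N) (hadj b' l)) (hRP hk) (hRP hl)
      rcases hc1 with rfl | rfl <;> rcases hc2 with h | h <;>
        simp only [Sum.inl.injEq, Prod.mk.injEq] at h <;> exact h.1
  have hCC : ∀ {b b' i j w}, w ∈ C b i → w ∈ C b' j → b = b' ∧ i = j := by
    intro b b' i j w h h'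
    obtain rfl := hsides h h'
    refine ⟨rfl, ?_⟩
    by_contra hij
    exact Set.disjoint_left.1 (hC3 b i j hij) h h'
  have hbr : DAdj (false, 0) (true, 0) := by decide
  -- the connecting link
  obtain ⟨Q, hQL, hQs, hQn⟩ : ∃ Q : List W, Link G (⋃ i, C false i) Q (⋃ i, C true i) ∧
      (∀ x ∈ Q, x ∈ (P (Sum.inl (false, 0)) (Sum.inl (true, 0)) (T.adjD hbr)).support ∧
        x ∉ (⋃ i, C false i) ∧ x ∉ (⋃ i, C true i)) ∧ Q.Nodup := by
    refine extract ?_ _ (P (Sum.inl (false, 0)) (Sum.inl (true, 0)) (T.adjD hbr)) rfl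
      (hPath _ _ _) (Set.mem_iUnion.2 ⟨0, hC1 _ _ (hZroot _)⟩)
      (Set.mem_iUnion.2 ⟨0, hC1 _ _ (hZroot _)⟩)
    rw [Set.disjoint_left]
    intro w hw hw'
    obtain ⟨i, hi⟩ := Set.mem_iUnion.1 hw
    obtain ⟨j, hj⟩ := Set.mem_iUnion.1 hw'
    have := hsides hi hj
    simp at this
  have hQleaf : ∀ {y} {k : Fin N}, ι (Sum.inr ⟨y, k⟩) ∉ Q := by
    intro y k h
    have := hRoot _ _ _ _ (hQs _ h).1
    simp at this
  have hQC : ∀ {b i w}, w ∈ Q → w ∉ C b i := by
    intro b i w hw h
    cases b with
    | false => exact (hQs w hw).2.1 (Set.mem_iUnion.2 ⟨i, h⟩)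
    | true => exact (hQs w hw).2.2 (Set.mem_iUnion.2 ⟨i, h⟩)
  obtain ⟨a, ha, d, hd, hL⟩ := hQL.exists_points
  obtain ⟨i0, hi0⟩ := Set.mem_iUnion.1 ha
  obtain ⟨j0, hj0⟩ := Set.mem_iUnion.1 hd
  let s : Bool → Fin 5 := fun b => if b then j0 else i0
  have hs0 : s false = i0 := rfl
  have hs1 : s true = j0 := rfl
  have hLC : Link G (C false i0) Q (C true j0) :=
    (hL.mono_left (Set.singleton_subset_iff.2 hi0)).mono_right (Set.singleton_subset_iff.2 hj0)
  obtain ⟨hconn, x0, hx0, y0, hy0, hxy0⟩ := hLC.connected_union (hC2 false i0)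
  -- the model of the cycle vertices
  let M : K → Set W := fun x => {w | w ∈ C x.1 (x.2 + s x.1) ∨ (x = (false, 0) ∧ w ∈ Q)}
  have hM0 : M (false, 0) = C false i0 ∪ {x | x ∈ Q} := by
    ext w
    simp [M, hs0]
  have hM1 : ∀ x, x ≠ (false, 0) → M x = C x.1 (x.2 + s x.1) := by
    intro x hx
    ext w
    simp [M, hx]
  have hMsub : ∀ x, C x.1 (x.2 + s x.1) ⊆ M x := fun x w hw => Or.inl hw
  have hMM : ∀ {x y w}, w ∈ M x → w ∈ M y → x = y := by
    intro x y w hx hy
    rcases hx with hx | ⟨rfl, hx⟩ <;> rcases hy with hy | ⟨rfl, hy⟩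
    · obtain ⟨h1, h2⟩ := hCC hx hy
      rw [h1] at h2
      exact Prod.ext h1 (add_right_cancel h2)
    · exact absurd hx (hQC hy)
    · exact absurd hy (hQC hx)
    · rfl
  have hMleaf : ∀ {x y} {k : Fin N}, ι (Sum.inr ⟨y, k⟩) ∉ M x := by
    intro x y k h
    rcases h with h | ⟨_, h⟩
    · exact hCleaf h
    · exact hQleaf h
  have hMconn : ∀ x, (G.induce (M x)).Connected := by
    intro x
    by_cases hx : x = (false, 0)
    · rw [hx, hM0]; exact hconn
    · rw [hM1 x hx]; exact hC2 _ _
  have hMadj1 : ∀ b i, ∃ x ∈ M (b, i), ∃ y ∈ M (b, i + 1), G.Adj x y := by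
    intro b i
    obtain ⟨x, hx, y, hy, hxy⟩ := hC5 b (i + s b)
    refine ⟨x, hMsub (b, i) hx, y, hMsub (b, i + 1) ?_, hxy⟩
    have : i + s b + 1 = i + 1 + s b := by rw [add_right_comm]
    rw [this] at hy
    exact hy
  have hMadj2 : ∃ x ∈ M (false, 0), ∃ y ∈ M (true, 0), G.Adj x y := by
    refine ⟨x0, by rw [hM0]; exact hx0, y0, hMsub (true, 0) ?_, hxy0⟩
    simpa [hs1] using hy0
  have hMadj : ∀ x y, DAdj x y → ∃ w ∈ M x, ∃ z ∈ M y, G.Adj w z := by
    rintro ⟨b, i⟩ ⟨b', j⟩ h
    rcases h with ⟨h1, h2 | h2⟩ | ⟨h1, h2, h3⟩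
    · obtain rfl : b = b' := h1
      obtain rfl : j = i + 1 := h2
      exact hMadj1 b i
    · obtain rfl : b = b' := h1
      obtain rfl : i = j + 1 := h2
      obtain ⟨x, hx, y, hy, hxy⟩ := hMadj1 b j
      exact ⟨y, hy, x, hx, hxy.symm⟩
    · obtain rfl : i = 0 := h2
      obtain rfl : j = 0 := h3
      cases b <;> cases b'
      · exact absurd rfl h1
      · exact hMadj2
      · obtain ⟨x, hx, y, hy, hxy⟩ := hMadj2
        exact ⟨y, hy, x, hx, hxy.symm⟩
      · exact absurd rfl h1
  have hMleafadj : ∀ (x : K) (k : Fin N),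
      ∃ z ∈ M x, G.Adj (ι (Sum.inr ⟨(x.1, x.2 + s x.1), k⟩)) z := by
    intro x k
    refine ⟨c (x.1, x.2 + s x.1) k, hMsub x (hC1 _ _ (Or.inr ⟨k, Walk.start_mem_support _⟩)), ?_⟩
    exact hqadj _ _
  refine ⟨fun u => match u with
    | Sum.inl x => M x
    | Sum.inr p => {ι (Sum.inr ⟨(p.1.1, p.1.2 + s p.1.1), p.2⟩)}, ?_, ?_, ?_⟩
  · rintro (x | p)
    · exact hMconn x
    · exact connected_singleton _
  · rintro (x | p) (y | p') huv
    · rw [Set.disjoint_left]
      intro w hw hw'
      exact huv (congrArg Sum.inl (hMM hw hw'))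
    · rw [Set.disjoint_left]
      rintro w hw hw'
      obtain rfl : w = _ := hw'
      exact hMleaf hw
    · rw [Set.disjoint_left]
      rintro w hw' hw
      obtain rfl : w = _ := hw'
      exact hMleaf hw
    · rw [Set.disjoint_left]
      rintro w hw hw'
      obtain rfl : w = _ := hw
      have h1 : ι (Sum.inr ⟨(p.1.1, p.1.2 + s p.1.1), p.2⟩) =
        ι (Sum.inr ⟨(p'.1.1, p'.1.2 + s p'.1.1), p'.2⟩) := hw'
      have h2 := ι.injective h1
      apply huv
      obtain ⟨⟨b, i⟩, k⟩ := p
      obtain ⟨⟨b', i'⟩, k'⟩ := p'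
      simp only [Sum.inr.injEq, Sigma.mk.injEq, Prod.mk.injEq] at h2
      obtain ⟨⟨rfl, h3⟩, h4⟩ := h2
      obtain rfl := add_right_cancel h3
      rw [eq_of_heq h4]
  · rintro (x | p) (y | p') huv
    · exact hMadj x y huv
    · obtain ⟨y', k⟩ := p'
      obtain rfl : y' = x := huv
      obtain ⟨z, hz, hadjz⟩ := hMleafadj y' k
      exact ⟨z, hz, _, rfl, hadjz.symm⟩
    · obtain ⟨x', k⟩ := p
      obtain rfl : x' = y := huv
      obtain ⟨z, hz, hadjz⟩ := hMleafadj x' k
      exact ⟨_, rfl, z, hz, hadjz⟩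
    · exact absurd huv T_inr_inr

/-- The host graph: roots `(x, false)`, primes `(x, true)`, and the leaves at the roots. -/
def Host (n : K → ℕ) : SimpleGraph ((K × Bool) ⊕ (Σ x : K, Fin (n x))) where
  Adj := fun u v => match u, v with
    | Sum.inl x, Sum.inl y => DAdj x.1 y.1 ∧ (x.2 = true ∨ y.2 = true)
    | Sum.inl x, Sum.inr p => x = (p.1, false)
    | Sum.inr p, Sum.inl x => x = (p.1, false)
    | Sum.inr _, Sum.inr _ => False
  symm := ⟨by
    rintro (x | p) (y | q) h
    · exact ⟨DAdj.symm' h.1, h.2.symm⟩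
    · exact h
    · exact h
    · exact h⟩
  loopless := ⟨by
    rintro (x | p) h
    · exact DAdj.irrefl' h.1
    · exact h⟩

def hostEmb (n : K → ℕ) :
    (K ⊕ (Σ x : K, Fin (n x))) ↪ ((K × Bool) ⊕ (Σ x : K, Fin (n x))) where
  toFun := fun u => match u with
    | Sum.inl x => Sum.inl (x, false)
    | Sum.inr p => Sum.inr p
  inj' := by
    rintro (x | p) (y | q) h
    · simp only [Sum.inl.injEq, Prod.mk.injEq, and_true] at h; rw [h]
    · simp at h
    · simp at h
    · simp only [Sum.inr.injEq] at h; rw [h]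

theorem DAdj.ne' {x y : K} (h : DAdj x y) : x ≠ y := by
  rintro rfl; exact DAdj.irrefl' h

def schemeWalk (n : K → ℕ) : ∀ u v, (T n).Adj u v → (Host n).Walk (hostEmb n u) (hostEmb n v)
  | Sum.inl x, Sum.inl y, h =>
    have h0 : DAdj x y := h
    have h1 : (Host n).Adj (Sum.inl (x, false)) (Sum.inl (y, true)) := ⟨h0, Or.inr rfl⟩
    have h2 : (Host n).Adj (Sum.inl (y, true)) (Sum.inl (x, true)) := ⟨DAdj.symm' h0, Or.inr rfl⟩
    have h3 : (Host n).Adj (Sum.inl (x, true)) (Sum.inl (y, false)) := ⟨h0, Or.inl rfl⟩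
    Walk.cons h1 (Walk.cons h2 (Walk.cons h3 Walk.nil))
  | Sum.inl x, Sum.inr p, h =>
    have h0 : (Host n).Adj (Sum.inl (x, false)) (Sum.inr p) := by
      have : p.1 = x := h
      rw [← this]; rfl
    Walk.cons h0 Walk.nil
  | Sum.inr p, Sum.inl x, h =>
    have h0 : (Host n).Adj (Sum.inr p) (Sum.inl (x, false)) := by
      have : p.1 = x := h
      rw [← this]; rfl
    Walk.cons h0 Walk.nil
  | Sum.inr _, Sum.inr _, h => absurd h T_inr_inr

theorem hostEmb_inl (n : K → ℕ) (x : K) : hostEmb n (Sum.inl x) = Sum.inl (x, false) := rfl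

theorem hostEmb_inr (n : K → ℕ) (p : Σ x : K, Fin (n x)) : hostEmb n (Sum.inr p) = Sum.inr p := rfl

theorem supp_ll (n : K → ℕ) (x y : K) (h : (T n).Adj (Sum.inl x) (Sum.inl y)) :
    (schemeWalk n _ _ h).support =
      [Sum.inl (x, false), Sum.inl (y, true), Sum.inl (x, true), Sum.inl (y, false)] := rfl

theorem supp_lr (n : K → ℕ) (x : K) (p) (h : (T n).Adj (Sum.inl x) (Sum.inr p)) :
    (schemeWalk n _ _ h).support = [Sum.inl (x, false), Sum.inr p] := rfl

theorem supp_rl (n : K → ℕ) (x : K) (p) (h : (T n).Adj (Sum.inr p) (Sum.inl x)) :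
    (schemeWalk n _ _ h).support = [Sum.inr p, Sum.inl (x, false)] := rfl

theorem hasScheme (n : K → ℕ) : HasScheme (T n) (Host n) (hostEmb n) := by
  refine ⟨schemeWalk n, ?_, ?_, ?_, ?_⟩
  · rintro (x | p) (y | q) h
    · have hne : x ≠ y := DAdj.ne' h
      rw [Walk.isPath_def, supp_ll]
      simp [hne, hne.symm]
    · rw [Walk.isPath_def, supp_lr]; simp
    · rw [Walk.isPath_def, supp_rl]; simp
    · exact absurd h T_inr_inr
  · rintro (x | p) (y | q) h
    · rfl
    · rfl
    · rfl
    · exact absurd h T_inr_inr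
  · rintro (x | p) (y | q) h (z | r) hz
    · rw [supp_ll, hostEmb_inl] at hz; simpa using hz
    · rw [supp_ll, hostEmb_inr] at hz; simp at hz
    · rw [supp_lr, hostEmb_inl] at hz; simpa using hz
    · rw [supp_lr, hostEmb_inr] at hz; simpa using hz
    · rw [supp_rl, hostEmb_inl] at hz; simpa using hz
    · rw [supp_rl, hostEmb_inr] at hz; simpa using hz
    · exact absurd h T_inr_inr
    · exact absurd h T_inr_inr
  · rintro (⟨x, s⟩ | p) -
    · refine ⟨Sum.inl x, ?_⟩
      rintro (y | q) (z | r) h hw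
      · rw [supp_ll] at hw
        simp only [List.mem_cons, Sum.inl.injEq, Prod.mk.injEq, List.not_mem_nil, or_false] at hw
        simp only [Sum.inl.injEq]
        tauto
      · rw [supp_lr] at hw
        simp only [List.mem_cons, Sum.inl.injEq, Prod.mk.injEq, List.not_mem_nil, or_false,
          reduceCtorEq] at hw
        simp only [Sum.inl.injEq]
        tauto
      · rw [supp_rl] at hw
        simp only [List.mem_cons, Sum.inl.injEq, Prod.mk.injEq, List.not_mem_nil, or_false,
          reduceCtorEq, false_or] at hw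
        simp only [Sum.inl.injEq]
        tauto
      · exact absurd h T_inr_inr
    · refine ⟨Sum.inr p, ?_⟩
      rintro (y | q) (z | r) h hw
      · rw [supp_ll] at hw; simp at hw
      · rw [supp_lr] at hw; simpa using hw
      · rw [supp_rl] at hw; simpa using hw
      · exact absurd h T_inr_inr

/-- In a connected set, a proper nonempty part is left by an edge. -/
theorem exists_boundary {W : Type} {G : SimpleGraph W} {C : Set W} (hC : (G.induce C).Connected)
    (A : Set W) {a b : W} (ha : a ∈ C) (hb : b ∈ C) (haA : a ∈ A) (hbA : b ∉ A) :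
    ∃ u v, u ∈ C ∧ v ∈ C ∧ u ∈ A ∧ v ∉ A ∧ G.Adj u v := by
  obtain ⟨p⟩ := hC.preconnected ⟨a, ha⟩ ⟨b, hb⟩
  obtain ⟨d, -, h1, h2⟩ := p.exists_boundary_dart {z | z.1 ∈ A} haA hbA
  exact ⟨d.fst.1, d.snd.1, d.fst.2, d.snd.2, h1, h2, d.adj⟩

theorem no_triangle : ∀ x y z : K, DAdj x y → DAdj y z → DAdj x z → False := by decide

theorem no_square : ∀ x y a b : K, DAdj x y → DAdj x a → DAdj a b → DAdj b y → a = y ∨ b = x := by
  decide

/-- The numerical core: local constraints around a 5-cycle. -/
theorem five_core (p : Fin 5 → ℕ) (h : ∀ i, p i ≤ 1 → p (i + 1) ≤ 1 → p i = 1 ∧ p (i + 1) = 1) :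
    5 ≤ ∑ i, p i ∧ (∑ i, p i ≤ 5 → ∀ i, p i = 1) := by
  have h0 := h 0
  have h1 := h 1
  have h2 := h 2
  have h3 := h 3
  have h4 := h 4
  have e0 : (0 : Fin 5) + 1 = 1 := rfl
  have e1 : (1 : Fin 5) + 1 = 2 := rfl
  have e2 : (2 : Fin 5) + 1 = 3 := rfl
  have e3 : (3 : Fin 5) + 1 = 4 := rfl
  have e4 : (4 : Fin 5) + 1 = 0 := rfl
  rw [e0] at h0
  rw [e1] at h1
  rw [e2] at h2
  rw [e3] at h3
  rw [e4] at h4
  rw [Fin.sum_univ_five]
  refine ⟨by omega, fun hs => ?_⟩
  have key : p 0 = 1 ∧ p 1 = 1 ∧ p 2 = 1 ∧ p 3 = 1 ∧ p 4 = 1 := by omega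
  obtain ⟨k0, k1, k2, k3, k4⟩ := key
  intro i
  fin_cases i <;> assumption

theorem fin_e1 : ∀ c : Bool, DAdj (c, 0) (c, 1) := by decide

theorem fin_e4 : ∀ c : Bool, DAdj (c, 0) (c, 4) := by decide

theorem fin_n1 : ∀ c : Bool, ((!c, (0 : Fin 5)) : K) = (c, 1) → False := by decide

theorem fin_n4 : ∀ c : Bool, ((!c, (0 : Fin 5)) : K) = (c, 4) → False := by decide

theorem fin_n14 : ∀ c : Bool, ((c, (1 : Fin 5)) : K) = (c, 4) → False := by decide

/-- The combinatorial core: the dumbbell has no rooted minor in the graph of roots and primes. -/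
theorem no_rooted (Pr : K → Finset K)
    (hdisj : ∀ x y, x ≠ y → Disjoint (Pr x) (Pr y))
    (hnb : ∀ x, (Pr x).Nonempty → ∃ z ∈ Pr x, DAdj x z)
    (hadj : ∀ x y, DAdj x y → (∃ b ∈ Pr y, DAdj x b) ∨ (∃ a ∈ Pr x, DAdj a y) ∨
      (∃ a ∈ Pr x, ∃ b ∈ Pr y, DAdj a b)) : False := by
  classical
  -- the certificate for edges with few primes
  have cert : ∀ x y, DAdj x y → (Pr x).card ≤ 1 → (Pr y).card ≤ 1 →
      (Pr x).card = 1 ∧ (Pr y).card = 1 ∧ (y ∈ Pr x ∨ x ∈ Pr y) := by
    intro x y hxy hx hy
    have hux : ∀ a ∈ Pr x, DAdj x a := by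
      intro a ha
      obtain ⟨z, hz, hxz⟩ := hnb x ⟨a, ha⟩
      rwa [Finset.card_le_one.1 hx a ha z hz]
    have huy : ∀ a ∈ Pr y, DAdj y a := by
      intro a ha
      obtain ⟨z, hz, hyz⟩ := hnb y ⟨a, ha⟩
      rwa [Finset.card_le_one.1 hy a ha z hz]
    rcases hadj x y hxy with ⟨b, hb, hxb⟩ | ⟨a, ha, hay⟩ | ⟨a, ha, b, hb, hab⟩
    · exact (no_triangle x y b hxy (huy b hb) hxb).elim
    · exact (no_triangle x a y (hux a ha) hay hxy).elim
    · have hx1 : (Pr x).card = 1 := le_antisymm hx (Finset.card_pos.2 ⟨a, ha⟩)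
      have hy1 : (Pr y).card = 1 := le_antisymm hy (Finset.card_pos.2 ⟨b, hb⟩)
      refine ⟨hx1, hy1, ?_⟩
      rcases no_square x y a b hxy (hux a ha) hab (DAdj.symm' (huy b hb)) with h | h
      · subst h; exact Or.inl ha
      · subst h; exact Or.inr hb
  have hstep : ∀ b : Bool, ∀ i : Fin 5, DAdj (b, i) (b, i + 1) := by decide
  have hside : ∀ b : Bool, 5 ≤ ∑ i, (Pr (b, i)).card ∧
      (∑ i, (Pr (b, i)).card ≤ 5 → ∀ i, (Pr (b, i)).card = 1) := by
    intro b
    apply five_core (fun i => (Pr (b, i)).card)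
    intro i h1 h2
    have := cert _ _ (hstep b i) h1 h2
    exact ⟨this.1, this.2.1⟩
  have htotal : ∑ x, (Pr x).card ≤ 10 := by
    have h1 : (Finset.univ.biUnion Pr).card = ∑ x, (Pr x).card :=
      Finset.card_biUnion (fun x _ y _ hxy => hdisj x y hxy)
    rw [← h1]
    calc (Finset.univ.biUnion Pr).card ≤ Fintype.card K := Finset.card_le_univ _
      _ = 10 := by decide
  have hsplit : ∑ x, (Pr x).card = ∑ i, (Pr (false, i)).card + ∑ i, (Pr (true, i)).card := by
    rw [Fintype.sum_prod_type, Fintype.sum_bool, add_comm]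
  have hf := hside false
  have ht := hside true
  have hone : ∀ x, (Pr x).card = 1 := by
    rintro ⟨b, i⟩
    cases b
    · exact hf.2 (by omega) i
    · exact ht.2 (by omega) i
  have cert' : ∀ x y, DAdj x y → y ∈ Pr x ∨ x ∈ Pr y := fun x y h =>
    (cert x y h (hone x).le (hone y).le).2.2
  have uniq : ∀ x a b, a ∈ Pr x → b ∈ Pr x → a = b := fun x a b ha hb =>
    Finset.card_le_one.1 (hone x).le a ha b hb
  have disj' : ∀ x y a, a ∈ Pr x → a ∈ Pr y → x = y := by
    intro x y a ha hb
    by_contra hxy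
    exact Finset.disjoint_left.1 (hdisj x y hxy) ha hb
  have fin : ∀ c : Bool, (!c, (0 : Fin 5)) ∉ Pr (c, 0) := by
    intro c hc
    have e1 : DAdj (c, 0) (c, 1) := fin_e1 c
    have e4 : DAdj (c, 0) (c, 4) := fin_e4 c
    have k1 : (c, (0 : Fin 5)) ∈ Pr (c, 1) := by
      rcases cert' _ _ e1 with h | h
      · exact (fin_n1 c (uniq _ _ _ hc h)).elim
      · exact h
    have k4 : (c, (0 : Fin 5)) ∈ Pr (c, 4) := by
      rcases cert' _ _ e4 with h | h
      · exact (fin_n4 c (uniq _ _ _ hc h)).elim
      · exact h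
    exact fin_n14 c (disj' _ _ _ k1 k4)
  have ebr : DAdj (false, 0) (true, 0) := by decide
  rcases cert' _ _ ebr with h | h
  · exact fin false h
  · exact fin true h

/-- If the numbers of leaves are pairwise far apart, `Host n` has no `T n`-minor. -/
theorem not_hasMinor (m : K → ℕ) (hm : Function.Injective m) (hm1 : ∀ x, 1 ≤ m x) :
    ¬ HasMinor (T (fun x => 21 * m x)) (Host (fun x => 21 * m x)) := by
  classical
  rintro ⟨C, hconn, hdisj, hadj⟩
  set n : K → ℕ := fun x => 21 * m x with hn
  have hCC : ∀ {u v w}, w ∈ C u → w ∈ C v → u = v := by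
    intro u v w hu hv
    by_contra h
    exact Set.disjoint_left.1 (hdisj u v h) hu hv
  have hcard : Fintype.card (K × Bool) = 20 := by decide
  -- each cycle vertex gets a root
  have hroot : ∀ x, ∃ y, (Sum.inl (y, false) : (K × Bool) ⊕ (Σ x : K, Fin (n x))) ∈
      C (Sum.inl x) := by
    intro x
    by_contra hno
    push Not at hno
    have hcore : ∀ k : Fin (n x), ∃ c : K × Bool,
        (Sum.inl c : (K × Bool) ⊕ (Σ x : K, Fin (n x))) ∈ C (Sum.inr ⟨x, k⟩) := by
      intro k
      obtain ⟨w, hw, z, hz, hwz⟩ := hadj (Sum.inr ⟨x, k⟩) (Sum.inl x) rfl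
      rcases w with c | p
      · exact ⟨c, hw⟩
      · exfalso
        rcases z with c | q
        · have : c = (p.1, false) := hwz
          subst this
          exact hno _ hz
        · exact hwz
    choose f hf using hcore
    have hinj : Function.Injective f := by
      intro k l hkl
      have h1 := hf k
      rw [hkl] at h1
      have := hCC h1 (hf l)
      simpa using this
    have := Fintype.card_le_of_injective f hinj
    rw [hcard, Fintype.card_fin] at this
    have h1 := hm1 x
    simp only [hn] at this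
    omega
  choose r hr using hroot
  have hrinj : Function.Injective r := by
    intro x y hxy
    have h1 := hr x
    rw [hxy] at h1
    simpa using hCC h1 (hr y)
  have hrbij : Function.Bijective r := Finite.injective_iff_bijective.1 hrinj
  have hrootuniq : ∀ x y, (Sum.inl (y, false) : (K × Bool) ⊕ (Σ x : K, Fin (n x))) ∈
      C (Sum.inl x) → y = r x := by
    intro x y hy
    obtain ⟨x', rfl⟩ := hrbij.2 y
    have := hCC hy (hr x')
    simp only [Sum.inl.injEq] at this
    rw [this]
  -- counting leaves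
  have hcount : ∀ x, n x ≤ 20 + n (r x) := by
    intro x
    let S : Finset ((K × Bool) ⊕ (Σ x : K, Fin (n x))) :=
      Finset.univ.image Sum.inl ∪ Finset.univ.image (fun j : Fin (n (r x)) => Sum.inr ⟨r x, j⟩)
    have hS : S.card ≤ 20 + n (r x) := by
      refine (Finset.card_union_le _ _).trans (add_le_add ?_ ?_)
      · refine Finset.card_image_le.trans ?_
        rw [Finset.card_univ, hcard]
      · refine Finset.card_image_le.trans ?_
        rw [Finset.card_univ, Fintype.card_fin]
    have hpick : ∀ k : Fin (n x), ∃ w ∈ S, w ∈ C (Sum.inr ⟨x, k⟩) := by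
      intro k
      obtain ⟨w, hw, z, hz, hwz⟩ := hadj (Sum.inr ⟨x, k⟩) (Sum.inl x) rfl
      rcases w with c | p
      · exact ⟨_, Finset.mem_union_left _ (Finset.mem_image_of_mem _ (Finset.mem_univ c)), hw⟩
      · rcases z with c | q
        · have : c = (p.1, false) := hwz
          subst this
          obtain ⟨y, j⟩ := p
          obtain rfl := hrootuniq x y hz
          exact ⟨_, Finset.mem_union_right _ (Finset.mem_image_of_mem _ (Finset.mem_univ j)), hw⟩
        · exact absurd hwz (fun h => h)
    choose f hfS hfC using hpick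
    have hinj : Function.Injective f := by
      intro k l hkl
      have h1 := hfC k
      rw [hkl] at h1
      simpa using hCC h1 (hfC l)
    have h1 : Fintype.card (Fin (n x)) ≤ S.card := by
      rw [← Finset.card_univ]
      exact Finset.card_le_card_of_injOn f (fun k _ => hfS k) (fun a _ b _ h => hinj h)
    rw [Fintype.card_fin] at h1
    exact h1.trans hS
  have hmle : ∀ x, m x ≤ m (r x) := by
    intro x
    have := hcount x
    simp only [hn] at this
    omega
  have hrid : ∀ x, r x = x := by
    have hsum : ∑ x, m (r x) = ∑ x, m x := hrbij.sum_comp m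
    intro x
    by_contra hx
    have hlt : m x < m (r x) := lt_of_le_of_ne (hmle x) (fun h => hx (hm h).symm)
    have := Finset.sum_lt_sum (fun y (_ : y ∈ Finset.univ) => hmle y) ⟨x, Finset.mem_univ x, hlt⟩
    omega
  have hrootx : ∀ x, (Sum.inl (x, false) : (K × Bool) ⊕ (Σ x : K, Fin (n x))) ∈
      C (Sum.inl x) := by
    intro x
    have := hr x
    rwa [hrid] at this
  have hrootuniq' : ∀ x y, (Sum.inl (y, false) : (K × Bool) ⊕ (Σ x : K, Fin (n x))) ∈
      C (Sum.inl x) → y = x := by
    intro x y hy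
    rw [hrootuniq x y hy, hrid]
  -- leaves in `C (inl x)` are leaves at `x`
  have hleafx : ∀ x (p : Σ x : K, Fin (n x)), Sum.inr p ∈ C (Sum.inl x) → p.1 = x := by
    intro x p hp
    obtain ⟨u, v, hu, hv, huA, hvA, huv⟩ := exists_boundary (hconn (Sum.inl x)) {Sum.inr p}
      hp (hrootx x) rfl (by simp)
    rw [Set.mem_singleton_iff] at huA
    subst huA
    rcases v with c | q
    · have : c = (p.1, false) := huv
      subst this
      exact hrootuniq' x p.1 hv
    · exact absurd huv (fun h => h)
  let Pr : K → Finset K := fun x => Finset.univ.filter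
    (fun y => (Sum.inl (y, true) : (K × Bool) ⊕ (Σ x : K, Fin (n x))) ∈ C (Sum.inl x))
  have hPr : ∀ x y, y ∈ Pr x ↔
      (Sum.inl (y, true) : (K × Bool) ⊕ (Σ x : K, Fin (n x))) ∈ C (Sum.inl x) := by
    intro x y; simp [Pr]
  apply no_rooted Pr
  · intro x y hxy
    rw [Finset.disjoint_left]
    intro a ha hb
    rw [hPr] at ha hb
    have := hCC ha hb
    simp only [Sum.inl.injEq] at this
    exact hxy this
  · rintro x ⟨y, hy⟩
    rw [hPr] at hy
    -- leave the root and its leaves
    let A : Set ((K × Bool) ⊕ (Σ x : K, Fin (n x))) :=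
      {w | w = Sum.inl (x, false) ∨ ∃ p : Σ x : K, Fin (n x), w = Sum.inr p ∧ p.1 = x}
    obtain ⟨u, v, hu, hv, huA, hvA, huv⟩ := exists_boundary (hconn (Sum.inl x)) A
      (hrootx x) hy (Or.inl rfl) (by
        rintro (h | ⟨p, h, -⟩)
        · simp at h
        · simp at h)
    rcases huA with rfl | ⟨p, rfl, hp⟩
    · rcases v with ⟨z, s⟩ | q
      · cases s
        · have := hrootuniq' x z hv
          subst this
          exact absurd (Or.inl rfl) hvA
        · exact ⟨z, (hPr x z).2 hv, huv.1⟩
      · have h1 : (x, false) = (q.1, false) := huv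
        have h2 : q.1 = x := by
          have := congrArg Prod.fst h1
          exact this.symm
        exact absurd (Or.inr ⟨q, rfl, h2⟩) hvA
    · rcases v with c | q
      · have : c = (p.1, false) := huv
        subst this
        rw [hp] at hvA
        exact absurd (Or.inl rfl) hvA
      · exact absurd huv (fun h => h)
  · intro x y hxy
    obtain ⟨w, hw, z, hz, hwz⟩ := hadj (Sum.inl x) (Sum.inl y) hxy
    rcases w with ⟨a, s⟩ | p
    · rcases z with ⟨b, t⟩ | q
      · obtain ⟨h1, h2⟩ := hwz
        cases s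
        · cases t
          · simp at h2
          · obtain rfl := hrootuniq' x a hw
            exact Or.inl ⟨b, (hPr y b).2 hz, h1⟩
        · cases t
          · obtain rfl := hrootuniq' y b hz
            exact Or.inr (Or.inl ⟨a, (hPr x a).2 hw, h1⟩)
          · exact Or.inr (Or.inr ⟨a, (hPr x a).2 hw, b, (hPr y b).2 hz, h1⟩)
      · exfalso
        have h1 := hleafx y q hz
        have h2 : (a, s) = (q.1, false) := hwz
        rw [h2, h1] at hw
        exact DAdj.ne' hxy (hrootuniq' x y hw).symm
    · exfalso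
      have h1 := hleafx x p hw
      rcases z with c | q
      · have : c = (p.1, false) := hwz
        subst this
        rw [h1] at hz
        exact DAdj.ne' hxy (hrootuniq' y x hz)
      · exact hwz

/-- Weak contractibility is invariant under isomorphism. -/
theorem WeaklyContractible.of_iso {V V' : Type} {H : SimpleGraph V} {H' : SimpleGraph V'}
    (e : H ≃g H') (h : WeaklyContractible H') : WeaklyContractible H := by
  intro W _ G ι hS
  obtain ⟨P, h1, h2, h3, h4⟩ := hS
  have hS' : HasScheme H' G (e.symm.toEquiv.toEmbedding.trans ι) := by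
    refine ⟨fun u v h => P (e.symm u) (e.symm v) (e.symm.map_adj_iff.2 h), ?_, ?_, ?_, ?_⟩
    · intro u v h; exact h1 _ _ _
    · intro u v h; exact h2 _ _ _
    · intro u v h x hx
      have := h3 _ _ _ (e.symm x) hx
      simpa using this
    · rintro w ⟨u, v, h, hw⟩
      obtain ⟨c, hc⟩ := h4 w ⟨_, _, _, hw⟩
      refine ⟨e c, ?_⟩
      intro u v h hw
      rcases hc _ _ _ hw with rfl | rfl
      · left; simp
      · right; simp
  obtain ⟨C, hC1, hC2, hC3⟩ := h W G _ hS'
  refine ⟨fun v => C (e v), fun v => hC1 _, ?_, ?_⟩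
  · intro u v huv
    exact hC2 _ _ (fun h => huv (e.injective h))
  · intro u v huv
    exact hC3 _ _ (e.map_adj_iff.2 huv)

/-- The multiplicities of the leaves: the values are `1, ..., 10`. -/
def mult (x : K) : ℕ := (if x.1 then 5 else 0) + x.2.val + 1

theorem mult_injective : Function.Injective mult := by
  intro x y
  revert x y
  decide

theorem mult_pos : ∀ x, 1 ≤ mult x := by intro x; unfold mult; omega

theorem mult_le : ∀ x, 21 * mult x ≤ 210 := by
  intro x
  have := x.2.isLt
  unfold mult
  split <;> omega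

/-- The tree-decorated dumbbell with few leaves is an induced subgraph of the one with many. -/
def embT {n n' : K → ℕ} (h : ∀ x, n x ≤ n' x) : T n ↪g T n' where
  toFun := fun u => match u with
    | Sum.inl x => Sum.inl x
    | Sum.inr p => Sum.inr ⟨p.1, Fin.castLE (h p.1) p.2⟩
  inj' := by
    rintro (x | ⟨x, k⟩) (y | ⟨y, l⟩) hxy
    · simpa using hxy
    · simp at hxy
    · simp at hxy
    · simp only [Sum.inr.injEq, Sigma.mk.injEq] at hxy
      obtain ⟨rfl, h2⟩ := hxy
      have h3 := eq_of_heq h2
      rw [Fin.castLE_inj] at h3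
      rw [h3]
  map_rel_iff' := by
    rintro (x | ⟨x, k⟩) (y | ⟨y, l⟩)
    · exact Iff.rfl
    · exact Iff.rfl
    · exact Iff.rfl
    · exact Iff.rfl


end Pool.Agent.Lib.MP_2025f4_co
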